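import Mathlib

/-! Strict intertwining of complex polynomials is not transitive in any degree at least three. -/

open Polynomial

namespace Pool.Agent.Results.MP_c10dfe_an.NotTransitive

/-- `A ≥ B`: there is a non-constant polynomial `p` with `p ∘ A = B ∘ p`. -/
def SemiConj (A B : ℂ[X]) : Prop :=
  ∃ p : ℂ[X], 0 < p.natDegree ∧ p.comp A = B.comp p

/-- `P` and `Q` are strictly intertwined: some polynomial `Φ` of degree at least two satisfies
`Φ ≥ P` and `Φ ≥ Q`. -/
def StrictlyIntertwined (P Q : ℂ[X]) : Prop :=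
  ∃ Φ : ℂ[X], 2 ≤ Φ.natDegree ∧ SemiConj Φ P ∧ SemiConj Φ Q

/-- Multipliers along a semiconjugacy at a fixed point. -/
lemma key {Φ B p : ℂ[X]} (hp : 0 < p.natDegree) (h : p.comp Φ = B.comp p) {z : ℂ}
    (hz : Φ.eval z = z) :
    B.eval (p.eval z) = p.eval z ∧
      ∃ e : ℕ, 0 < e ∧ B.derivative.eval (p.eval z) = (Φ.derivative.eval z) ^ e := by
  have hB : B.eval (p.eval z) = p.eval z := by
    have := congrArg (eval z) h
    simp only [eval_comp, hz] at this
    exact this.symm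
  refine ⟨hB, ?_⟩
  set w := p.eval z with hw
  have hpw : p - C w ≠ 0 := by
    intro h0
    have : p = C w := sub_eq_zero.mp h0
    rw [this] at hp
    simp at hp
  obtain ⟨u, hu, hu'⟩ := exists_eq_pow_rootMultiplicity_mul_and_not_dvd (p - C w) hpw z
  set e := rootMultiplicity z (p - C w) with he
  have he0 : 0 < e := by
    rw [he, rootMultiplicity_pos hpw]
    simp [IsRoot, hw]
  have huz : u.eval z ≠ 0 := by
    intro h0
    exact hu' (dvd_iff_isRoot.mpr h0)
  -- factor Φ - z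
  obtain ⟨g, hg⟩ : (X - C z) ∣ (Φ - C z) := by
    rw [dvd_iff_isRoot]; simp [IsRoot, hz]
  obtain ⟨k, hk⟩ : (X - C w) ∣ (B - C w) := by
    rw [dvd_iff_isRoot]; simp [IsRoot, hB]
  have hgz : Φ.derivative.eval z = g.eval z := by
    have := congrArg (fun q => eval z (derivative q)) hg
    simpa using this
  have hkw : B.derivative.eval w = k.eval w := by
    have := congrArg (fun q => eval w (derivative q)) hk
    simpa using this
  have h1 : p.comp Φ - C w = (X - C z) ^ e * (g ^ e * u.comp Φ) := by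
    have := congrArg (fun q => q.comp Φ) hu
    simp only [sub_comp, C_comp, mul_comp, pow_comp, X_comp] at this
    rw [this, hg, mul_pow, mul_assoc]
  have h2 : B.comp p - C w = (X - C z) ^ e * (u * k.comp p) := by
    have := congrArg (fun q => q.comp p) hk
    simp only [sub_comp, C_comp, mul_comp, X_comp] at this
    rw [this, hu, mul_assoc]
  have h3 : g ^ e * u.comp Φ = u * k.comp p := by
    have h4 : (X - C z) ^ e * (g ^ e * u.comp Φ) = (X - C z) ^ e * (u * k.comp p) := by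
      rw [← h1, ← h2, h]
    exact mul_left_cancel₀ (pow_ne_zero _ (X_sub_C_ne_zero z)) h4
  have h5 := congrArg (eval z) h3
  simp only [eval_mul, eval_pow, eval_comp, hz, ← hw] at h5
  refine ⟨e, he0, ?_⟩
  rw [hkw, hgz]
  have : (g.eval z ^ e) * u.eval z = k.eval w * u.eval z := by rw [h5]; ring
  exact (mul_right_cancel₀ huz this).symm

/-- The example `A(z) = b (z^d + a z)`. -/
noncomputable def A (d : ℕ) (a b : ℂ) : ℂ[X] := C b * (X ^ d + C a * X)

lemma A_natDegree {d : ℕ} (hd : 3 ≤ d) (a b : ℂ) (hb : b ≠ 0) : (A d a b).natDegree = d := by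
  unfold A
  rw [natDegree_C_mul hb]
  have h1 : (C a * X : ℂ[X]).natDegree < (X ^ d : ℂ[X]).natDegree := by
    rw [natDegree_X_pow]
    calc (C a * X : ℂ[X]).natDegree ≤ 1 := natDegree_C_mul_le a X |>.trans (by simp)
      _ < d := by omega
  rw [natDegree_add_eq_left_of_natDegree_lt h1, natDegree_X_pow]

/-- Fixed points and multipliers of `b (z^d + a z)` when `b ^ (d-1) = 1`. -/
lemma A_mult {d : ℕ} (hd : 3 ≤ d) {a b : ℂ} {w : ℂ}
    (hw : (A d a b).eval w = w) :
    (A d a b).derivative.eval w = b * a ∨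
      (A d a b).derivative.eval w = d - (d - 1) * (b * a) := by
  have h1 : b * (w ^ d + a * w) = w := by simpa [A] using hw
  have h2 : (A d a b).derivative.eval w = b * (d * w ^ (d - 1) + a) := by
    simp only [A, derivative_mul, derivative_C, derivative_add, derivative_X_pow, derivative_X,
      eval_add, eval_mul, eval_C, eval_pow, eval_X, zero_mul, zero_add, mul_one]
  obtain ⟨n, rfl⟩ : ∃ n, d = n + 1 := ⟨d - 1, by omega⟩
  by_cases hw0 : w = 0
  · left
    rw [h2, hw0]
    have : n + 1 - 1 ≠ 0 := by omega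
    simp [show n ≠ 0 by omega]
  · right
    rw [h2]
    have h3 : b * (w ^ n + a) = 1 := by
      have : (b * (w ^ n + a)) * w = 1 * w := by
        rw [one_mul]; calc _ = b * (w ^ (n + 1) + a * w) := by ring
          _ = w := h1
      exact mul_right_cancel₀ hw0 this
    have h4 : b * w ^ n = 1 - b * a := by linear_combination h3
    simp only [Nat.add_sub_cancel]
    push_cast
    linear_combination ((n : ℂ) + 1) * h4

/-- A parameter avoiding countably many polynomial conditions. -/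
lemma exists_param {d : ℕ} (hd : 3 ≤ d) {ζ : ℂ} (hζ : ζ ≠ 1) :
    ∃ a : ℂ, a ≠ 0 ∧ ∀ i j : ℕ, 0 < i → 0 < j →
      (i ≠ j → a ^ j ≠ (ζ * a) ^ i) ∧
      (a ^ j ≠ (d - (d - 1) * (ζ * a)) ^ i) ∧
      ((d - (d - 1) * a) ^ j ≠ (ζ * a) ^ i) ∧
      ((d - (d - 1) * a) ^ j ≠ (d - (d - 1) * (ζ * a)) ^ i) := by
  have hd0 : (d : ℂ) ≠ 0 := by exact_mod_cast (by omega : d ≠ 0)
  have hd1 : (d : ℂ) - 1 ≠ 0 := by
    have : (d : ℂ) ≠ 1 := by exact_mod_cast (by omega : d ≠ 1)
    exact sub_ne_zero.mpr this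
  let P1 : ℕ → ℕ → ℂ[X] := fun i j => if i = j then 1 else X ^ j - (C ζ * X) ^ i
  let P2 : ℕ → ℕ → ℂ[X] := fun i j =>
    if i = 0 then 1 else if j = 0 then 1 else X ^ j - (C (d : ℂ) - C ((d : ℂ) - 1) * (C ζ * X)) ^ i
  let P3 : ℕ → ℕ → ℂ[X] := fun i j =>
    if i = 0 then 1 else if j = 0 then 1 else (C (d : ℂ) - C ((d : ℂ) - 1) * X) ^ j - (C ζ * X) ^ i
  let P4 : ℕ → ℕ → ℂ[X] := fun i j =>
    if i = 0 then 1 else if j = 0 then 1 else
      (C (d : ℂ) - C ((d : ℂ) - 1) * X) ^ j - (C (d : ℂ) - C ((d : ℂ) - 1) * (C ζ * X)) ^ i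
  have h1 : ∀ i j, P1 i j ≠ 0 := by
    intro i j
    by_cases hij : i = j
    · simp [P1, hij]
    · simp only [P1, hij, if_false]
      intro h0
      have := congrArg (fun q => coeff q j) h0
      simp only [coeff_sub, coeff_X_pow, if_true, mul_pow, ← C_pow, coeff_C_mul, coeff_zero,
        if_neg (Ne.symm hij)] at this
      simp at this
  have h2 : ∀ i j, P2 i j ≠ 0 := by
    intro i j
    by_cases hi : i = 0
    · simp [P2, hi]
    by_cases hj : j = 0
    · simp [P2, hi, hj]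
    simp only [P2, hi, hj, if_false]
    intro h0
    have := congrArg (eval 0) h0
    simp [hj, hd0, hi] at this
  have h3 : ∀ i j, P3 i j ≠ 0 := by
    intro i j
    by_cases hi : i = 0
    · simp [P3, hi]
    by_cases hj : j = 0
    · simp [P3, hi, hj]
    simp only [P3, hi, hj, if_false]
    intro h0
    have := congrArg (eval 0) h0
    simp [hj, hd0, hi] at this
  have h4 : ∀ i j, P4 i j ≠ 0 := by
    intro i j
    by_cases hi : i = 0
    · simp [P4, hi]
    by_cases hj : j = 0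
    · simp [P4, hi, hj]
    simp only [P4, hi, hj, if_false]
    intro h0
    by_cases hij : i = j
    · subst hij
      have := congrArg (fun q => eval 0 (derivative q)) h0
      simp [derivative_pow] at this
      have h5 : ((d : ℂ) - 1) * (1 - ζ) = 0 := by
        have h6 : (i : ℂ) * (d : ℂ) ^ (i - 1) ≠ 0 :=
          mul_ne_zero (by exact_mod_cast hi) (pow_ne_zero _ hd0)
        have h7 : ((i : ℂ) * (d : ℂ) ^ (i - 1)) * (((d : ℂ) - 1) * (1 - ζ)) = 0 := by
          linear_combination (-1 : ℂ) * this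
        exact (mul_eq_zero.mp h7).resolve_left h6
      rcases mul_eq_zero.mp h5 with h | h
      · exact hd1 h
      · exact hζ (sub_eq_zero.mp h).symm
    · have := congrArg (eval 0) h0
      simp at this
      have h5 : (d : ℂ) ^ j = (d : ℂ) ^ i := sub_eq_zero.mp this
      have h6 : d ^ j = d ^ i := by exact_mod_cast h5
      exact hij (Nat.pow_right_injective (by omega) h6).symm
  let S : Set ℂ := {0} ∪ ⋃ i : ℕ, ⋃ j : ℕ,
    ({x | (P1 i j).IsRoot x} ∪ {x | (P2 i j).IsRoot x} ∪ {x | (P3 i j).IsRoot x} ∪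
      {x | (P4 i j).IsRoot x})
  have hS : S.Countable := by
    refine (Set.countable_singleton 0).union ?_
    refine Set.countable_iUnion fun i => Set.countable_iUnion fun j => ?_
    exact (((finite_setOfPred_isRoot (h1 i j)).countable.union
      (finite_setOfPred_isRoot (h2 i j)).countable).union
      (finite_setOfPred_isRoot (h3 i j)).countable).union (finite_setOfPred_isRoot (h4 i j)).countable
  obtain ⟨a, ha⟩ : ∃ a, a ∈ Sᶜ := (hS.dense_compl ℂ).nonempty
  have haS : a ∉ S := ha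
  refine ⟨a, fun h0 => haS (Or.inl h0), ?_⟩
  intro i j hi hj
  have hn : ¬ (((P1 i j).IsRoot a ∨ (P2 i j).IsRoot a) ∨ (P3 i j).IsRoot a) ∧
      ¬ (P4 i j).IsRoot a := by
    constructor
    · intro h
      exact haS (Or.inr (Set.mem_iUnion.mpr ⟨i, Set.mem_iUnion.mpr ⟨j, Or.inl h⟩⟩))
    · intro h
      exact haS (Or.inr (Set.mem_iUnion.mpr ⟨i, Set.mem_iUnion.mpr ⟨j, Or.inr h⟩⟩))
  have hi' : i ≠ 0 := by omega
  have hj' : j ≠ 0 := by omega
  refine ⟨fun hij h => hn.1 (Or.inl (Or.inl ?_)), fun h => hn.1 (Or.inl (Or.inr ?_)),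
    fun h => hn.1 (Or.inr ?_), fun h => hn.2 ?_⟩
  · simp only [P1, hij, if_false, IsRoot, eval_sub, eval_pow, eval_mul, eval_C, eval_X]
    rw [h, sub_self]
  · simp only [P2, hi', hj', if_false, IsRoot, eval_sub, eval_pow, eval_mul, eval_C, eval_X]
    rw [h, sub_self]
  · simp only [P3, hi', hj', if_false, IsRoot, eval_sub, eval_pow, eval_mul, eval_C, eval_X]
    rw [h, sub_self]
  · simp only [P4, hi', hj', if_false, IsRoot, eval_sub, eval_pow, eval_mul, eval_C, eval_X]
    rw [h, sub_self]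

/-- In every degree `d ≥ 3` strict intertwining fails to be transitive. -/
theorem result (d : ℕ) (hd : 3 ≤ d) :
    ∃ P Q R : ℂ[X], P.natDegree = d ∧ Q.natDegree = d ∧ R.natDegree = d ∧
      StrictlyIntertwined P R ∧ StrictlyIntertwined R Q ∧ ¬ StrictlyIntertwined P Q := by
  obtain ⟨ζ, hζ⟩ : ∃ ζ : ℂ, IsPrimitiveRoot ζ (d - 1) :=
    ⟨_, Complex.isPrimitiveRoot_exp (d - 1) (by omega)⟩
  have hζ1 : ζ ≠ 1 := hζ.ne_one (by omega)
  have hζ0 : ζ ≠ 0 := hζ.ne_zero (by omega)
  obtain ⟨a, ha0, ha⟩ := exists_param hd hζ1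
  let R : ℂ[X] := X * (X + C a) ^ (d - 1)
  have hcomp : ∀ b : ℂ, b ^ (d - 1) = 1 →
      (X ^ (d - 1) : ℂ[X]).comp (A d a b) = R.comp (X ^ (d - 1)) := by
    intro b hb
    obtain ⟨n, rfl⟩ : ∃ n, d = n + 1 := ⟨d - 1, by omega⟩
    simp only [Nat.add_sub_cancel] at hb ⊢
    simp only [R, A, mul_comp, X_comp, pow_comp, add_comp, C_comp,
      Nat.add_sub_cancel]
    rw [mul_pow, ← C_pow, hb, C_1, one_mul, show (X ^ (n + 1) + C a * X : ℂ[X]) =
      X * (X ^ n + C a) by ring, mul_pow]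
  have hRdeg : R.natDegree = d := by
    have hne : (X + C a : ℂ[X]) ≠ 0 := X_add_C_ne_zero a
    simp only [R]
    rw [natDegree_mul X_ne_zero (pow_ne_zero _ hne), natDegree_pow, natDegree_X_add_C,
      natDegree_X]
    omega
  have hsR : ∀ b : ℂ, b ^ (d - 1) = 1 → SemiConj (A d a b) R := by
    intro b hb
    exact ⟨X ^ (d - 1), by rw [natDegree_X_pow]; omega, hcomp b hb⟩
  have hrefl : ∀ P : ℂ[X], SemiConj P P := fun P => ⟨X, by simp, by simp⟩
  have hA1 := A_natDegree hd a 1 one_ne_zero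
  have hA2 := A_natDegree hd a ζ hζ0
  refine ⟨A d a 1, A d a ζ, R, hA1, hA2, hRdeg,
    ⟨A d a 1, by omega, hrefl _, hsR 1 (one_pow _)⟩,
    ⟨A d a ζ, by omega, hsR ζ hζ.pow_eq_one, hrefl _⟩, ?_⟩
  rintro ⟨Φ, hΦ, ⟨p, hp, hpe⟩, ⟨q, hq, hqe⟩⟩
  -- a fixed point of Φ
  have hdeg : (Φ - X).degree ≠ 0 := by
    have h1 : (Φ - X).natDegree = Φ.natDegree := by
      apply natDegree_sub_eq_left_of_natDegree_lt
      rw [natDegree_X]; omega
    intro h0
    have h2 : (Φ - X).natDegree = 0 := natDegree_eq_of_degree_eq_some h0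
    omega
  obtain ⟨z, hz⟩ := IsAlgClosed.exists_root (Φ - X) hdeg
  have hz' : Φ.eval z = z := by
    have : Φ.eval z - z = 0 := by simpa [IsRoot] using hz
    exact sub_eq_zero.mp this
  obtain ⟨h1, i, hi, h1'⟩ := key hp hpe hz'
  obtain ⟨h2, j, hj, h2'⟩ := key hq hqe hz'
  set m := Φ.derivative.eval z with hm
  have e1 := A_mult hd h1
  have e2 := A_mult hd h2
  rw [h1'] at e1
  rw [h2'] at e2
  simp only [one_mul] at e1
  have hpow : (m ^ i) ^ j = (m ^ j) ^ i := by rw [← pow_mul, ← pow_mul, mul_comm]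
  obtain ⟨c1, c2, c3, c4⟩ := ha i j hi hj
  rcases e1 with e1 | e1 <;> rcases e2 with e2 | e2
  · by_cases hij : i = j
    · subst hij
      have : ζ * a = 1 * a := by rw [one_mul, ← e2, e1]
      exact hζ1 (mul_right_cancel₀ ha0 this)
    · apply c1 hij
      rw [← e2, ← e1, hpow]
  · apply c2
    rw [e1, e2] at hpow
    exact hpow
  · apply c3
    rw [e1, e2] at hpow
    exact hpow
  · apply c4
    rw [e1, e2] at hpow
    exact hpow

end Pool.Agent.Results.MP_c10dfe_an.NotTransitive
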